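import Pool.Agent.Lib.MP_7f190d_al.Interfaces

/-!
# Module F: the base stage (the free group)
-/

set_option autoImplicit false

namespace Pool.Agent.Lib.MP_7f190d_al

open FreeGroup

section FreeMetric

variable {α : Type} [DecidableEq α]

/-- length of the common prefix -/
def lcp : List (α × Bool) → List (α × Bool) → ℕ
  | a :: l, b :: m => if a = b then lcp l m + 1 else 0
  | [], _ => 0
  | _ :: _, [] => 0

lemma lcp_ultra : ∀ l m k : List (α × Bool), min (lcp l k) (lcp k m) ≤ lcp l m
  | [], m, k => by simp [lcp]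
  | a :: l, [], k => by cases k <;> simp [lcp]
  | a :: l, b :: m, [] => by simp [lcp]
  | a :: l, b :: m, c :: k => by
    have ih := lcp_ultra l m k
    simp only [lcp]
    by_cases h1 : a = c
    · by_cases h2 : c = b
      · rw [if_pos h1, if_pos h2, if_pos (h1.trans h2)]
        omega
      · rw [if_neg h2]
        simp
    · rw [if_neg h1]
      simp

lemma isReduced_invRev {L : List (α × Bool)} (h : IsReduced L) : IsReduced (invRev L) := by
  rw [isReduced_iff_reduce_eq, reduce_invRev, h.reduce_eq]

lemma norm_mk {L : List (α × Bool)} (h : IsReduced L) : norm (mk L) = L.length := by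
  rw [FreeGroup.norm, toWord_mk, h.reduce_eq]

lemma norm_inv_mul : ∀ l m : List (α × Bool), IsReduced l → IsReduced m →
    norm ((mk l)⁻¹ * mk m) + 2 * lcp l m = l.length + m.length
  | [], m, _, hm => by
    have : (mk ([] : List (α × Bool)))⁻¹ * mk m = mk m := by
      rw [← one_eq_mk, inv_one, one_mul]
    rw [this, norm_mk hm]
    simp [lcp]
  | a :: l, [], hl, _ => by
    have : (mk (a :: l))⁻¹ * mk [] = (mk (a :: l))⁻¹ := by
      rw [← one_eq_mk, mul_one]
    rw [this, norm_inv_eq, norm_mk hl]
    simp [lcp]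
  | a :: l, b :: m, hl, hm => by
    simp only [lcp]
    by_cases h : a = b
    · subst h
      have e1 : ∀ k : List (α × Bool), mk (a :: k) = mk [a] * mk k := by
        intro k
        rw [mul_mk]
        rfl
      have e2 : (mk (a :: l))⁻¹ * mk (a :: m) = (mk l)⁻¹ * mk m := by
        rw [e1 l, e1 m]
        group
      rw [e2, if_pos rfl]
      have ih := norm_inv_mul l m (List.IsChain.tail hl) (List.IsChain.tail hm)
      simp only [List.length_cons]
      omega
    · rw [if_neg h, inv_mk, mul_mk]
      have hr : IsReduced (invRev (a :: l) ++ (b :: m)) := by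
        rw [invRev_cons]
        have h1 : IsReduced (invRev l ++ invRev [a]) := by
          rw [← invRev_cons]
          exact isReduced_invRev hl
        refine IsReduced.append_overlap h1 ?_ (by simp [invRev])
        change IsReduced ((a.1, !a.2) :: b :: m)
        rw [FreeGroup.isReduced_cons_cons]
        refine ⟨fun h2 => ?_, hm⟩
        have h3 : a.2 ≠ b.2 := fun h3 => h (Prod.ext h2 h3)
        simp only
        revert h3
        cases a.2 <;> cases b.2 <;> simp
      rw [norm_mk hr]
      simp

/-- the word metric of the free group -/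
def freeMet (α : Type) [DecidableEq α] : GMet (FreeGroup α) where
  d x y := norm (x⁻¹ * y)
  self x := by simp
  eq0 x y h := by
    rw [FreeGroup.norm_eq_zero, inv_mul_eq_one] at h
    exact h
  symm x y := by
    rw [← norm_inv_eq]
    congr 1
    group
  tri x y z := by
    have : x⁻¹ * z = (x⁻¹ * y) * (y⁻¹ * z) := by group
    rw [this]
    exact norm_mul_le _ _
  geod x y k hk := by
    set w := (x⁻¹ * y).toWord with hw
    have hwr : IsReduced w := isReduced_toWord
    have hmw : mk w = x⁻¹ * y := mk_toWord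
    have hlen : norm (x⁻¹ * y) = w.length := rfl
    have h1 : IsReduced (w.take k) := List.IsChain.take hwr k
    have h2 : IsReduced (w.drop k) := List.IsChain.drop hwr k
    refine ⟨x * mk (w.take k), ?_, ?_⟩
    · rw [inv_mul_cancel_left, norm_mk h1, List.length_take]
      omega
    · have e : (x * mk (w.take k))⁻¹ * y = mk (w.drop k) := by
        have e1 : mk (w.take k) * mk (w.drop k) = x⁻¹ * y := by
          rw [mul_mk, List.take_append_drop, hmw]
        rw [mul_inv_rev, mul_assoc, ← e1, inv_mul_cancel_left]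
      rw [e, norm_mk h2, List.length_drop]
      omega

lemma freeMet_hyp : (freeMet α).Hyp 0 := by
  intro x y z t
  have key : ∀ u v : FreeGroup α, norm (u⁻¹ * v) = norm ((x⁻¹ * u)⁻¹ * (x⁻¹ * v)) := by
    intro u v
    congr 1
    group
  have key2 : ∀ u v : FreeGroup α, norm (u⁻¹ * v) + 2 * lcp u.toWord v.toWord =
      norm u + norm v := by
    intro u v
    have := norm_inv_mul u.toWord v.toWord isReduced_toWord isReduced_toWord
    rw [mk_toWord, mk_toWord] at this
    exact this
  change norm (x⁻¹ * z) + norm (y⁻¹ * t) ≤ max (norm (x⁻¹ * y) + norm (z⁻¹ * t))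
    (norm (x⁻¹ * t) + norm (y⁻¹ * z)) + 2 * 0
  rw [key y t, key z t, key y z]
  set y' := x⁻¹ * y
  set z' := x⁻¹ * z
  set t' := x⁻¹ * t
  have h1 := key2 y' t'
  have h2 := key2 z' t'
  have h3 := key2 y' z'
  have h4 := lcp_ultra y'.toWord t'.toWord z'.toWord
  omega

lemma le_norm_pow (h : FreeGroup α) (hh : h ≠ 1) (m : ℕ) : m ≤ norm (h ^ m) := by
  open reduceCyclically in
  by_cases hm : m = 0
  · omega
  have h1 := reduce_flatten_replicate (isReduced_toWord (x := h)) m
  rw [if_neg hm, ← toWord_pow] at h1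
  have h2 : reduceCyclically h.toWord ≠ [] := by
    intro h3
    have h4 := conj_conjugator_reduceCyclically h.toWord
    rw [h3, List.append_nil] at h4
    apply hh
    rw [← mk_toWord (x := h), ← h4, ← mul_mk, ← inv_mk, mul_inv_cancel]
  rw [FreeGroup.norm, h1]
  have h3 : 1 ≤ (reduceCyclically h.toWord).length := List.length_pos_iff.mpr h2
  simp only [List.length_append, List.length_flatten, List.map_replicate, List.sum_replicate,
    smul_eq_mul]
  nlinarith

end FreeMetric

/-- Module F, with the modules I2 and Z as hypotheses. -/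
theorem f_module_of (hI2 : I2Statement) (hZ : ZStatement) : FStatement := by
  intro D A T n hD hT hA hn
  let F := FreeGroup (Fin 2)
  let Γ := F × Multiplicative ℤ
  let z : Γ := (1, Multiplicative.ofAdd 1)
  letI act : MulAction Γ F := MulAction.compHom F (MonoidHom.fst F (Multiplicative ℤ))
  have hact : ∀ (g : Γ) (x : F), g • x = g.1 * x := fun g x => rfl
  have hzp : ∀ g : Γ, g ∈ Subgroup.zpowers z ↔ g.1 = 1 := by
    intro g
    rw [Subgroup.mem_zpowers_iff]
    constructor
    · rintro ⟨k, rfl⟩
      change (1 : F) ^ k = 1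
      exact one_zpow k
    · intro h
      refine ⟨Multiplicative.toAdd g.2, ?_⟩
      ext1
      · change (1 : F) ^ (Multiplicative.toAdd g.2) = g.1
        rw [one_zpow, h]
      · change (Multiplicative.ofAdd (1 : ℤ)) ^ (Multiplicative.toAdd g.2) = g.2
        rw [← ofAdd_zsmul]
        simp
  have hFO : ∀ g : Γ, FO z g → g.1 = 1 := by
    rintro g ⟨m, hm, hgm⟩
    rw [hzp] at hgm
    change g.1 ^ m = 1 at hgm
    by_contra hne
    have := le_norm_pow g.1 hne m
    rw [hgm, FreeGroup.norm_one] at this
    omega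
  have hiso : Iso Γ (freeMet (Fin 2)) := by
    intro g x y
    change norm ((g.1 * x)⁻¹ * (g.1 * y)) = norm (x⁻¹ * y)
    congr 1
    rw [mul_inv_rev, mul_assoc, inv_mul_cancel_left]
  have hyp0 : (freeMet (Fin 2)).Hyp 0 := freeMet_hyp
  have hpre : PreStage Γ z F (freeMet (Fin 2)) D (10000 * D) A T := by
    refine ⟨hD, le_rfl, ⟨1⟩, ?_, ?_, hiso, ?_, ?_, ?_, ?_, ?_⟩
    · intro g
      ext1
      · change g.1 * 1 = 1 * g.1
        rw [mul_one, one_mul]
      · exact mul_comm _ _
    · intro m hm
      have h := congrArg Prod.snd hm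
      change (Multiplicative.ofAdd (1 : ℤ)) ^ m = 1 at h
      rw [← ofAdd_zsmul] at h
      have h2 : m • (1 : ℤ) = 0 := Multiplicative.ofAdd.injective h
      simpa using h2
    · intro x
      rw [hact]
      exact one_mul x
    · intro x y z t
      have := hyp0 x y z t
      omega
    · intro g₁ g₂ x y h1 h2 h3 h4 h5
      obtain ⟨p, hp1, hp2⟩ := (freeMet (Fin 2)).geod x y ((freeMet (Fin 2)).d x y / 2)
        (Nat.div_le_self _ _)
      have h6 := hI2 Γ F (freeMet (Fin 2)) 0 hyp0 hiso g₁ g₂ x y p (10000 * D) h1 h2 h3 h4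
        (by unfold GMet.Btw; omega) (by omega) (by omega)
      have h7 := (freeMet (Fin 2)).eq0 p _ (Nat.le_zero.mp h6)
      unfold CM
      rw [hzp]
      rw [hact] at h7
      exact (mul_eq_right.mp h7.symm)
    · intro g x y hg hg' _ _
      exact absurd (hFO g hg') (fun h => hg ((hzp g).mpr h))
    · intro g hg x m
      have hg1 : g.1 ≠ 1 := by
        intro h
        apply hg
        exact ⟨1, le_rfl, by rw [pow_one, hzp]; exact h⟩
      have h1 : (freeMet (Fin 2)).d x (g ^ m • x) = norm ((x⁻¹ * g.1 * x) ^ m) := by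
        change norm (x⁻¹ * (g.1 ^ m * x)) = _
        congr 1
        have := conj_pow (a := x⁻¹) (b := g.1) (i := m)
        rw [inv_inv] at this
        rw [this]
        group
      rw [h1]
      have h2 : m ≤ norm ((x⁻¹ * g.1 * x) ^ m) := by
        apply le_norm_pow
        intro h
        apply hg1
        have h2 := congrArg (fun w => x * w * x⁻¹) h
        simpa [mul_assoc] using h2
      exact h2.trans (Nat.le_mul_of_pos_left _ hT)
  refine ⟨Γ, inferInstance, z, F, act, freeMet (Fin 2), 1, (FreeGroup.of 0, 1),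
    (FreeGroup.of 1, 1), ⟨hpre, ?_, ?_⟩, ?_, ?_⟩
  · intro c hc
    exact hZ Γ z F (freeMet (Fin 2)) D (10000 * D) A T hpre c
      (fun h => hc ((hzp c).mpr (hFO c h)))
  · intro g hg hg'
    exact absurd (hFO g hg') (fun h => hg ((hzp g).mpr h))
  · unfold CM
    rw [hzp]
    change ¬ (FreeGroup.of (0 : Fin 2) * FreeGroup.of 1 * (FreeGroup.of 0)⁻¹ *
      (FreeGroup.of 1)⁻¹ = 1)
    decide
  · change FreeGroup.norm ((1 : FreeGroup (Fin 2))⁻¹ * ((FreeGroup.of (0 : Fin 2) *
      FreeGroup.of 1 * (FreeGroup.of 0)⁻¹ * (FreeGroup.of 1)⁻¹) * 1)) ≤ 4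
    decide

end Pool.Agent.Lib.MP_7f190d_al
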