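import Pool.Agent.Lib.MP_7f190d_al.Interfaces
import Pool.Agent.Lib.MP_7f190d_al.H1.FinExp

/-!
# Module G: the topological group
-/

set_option autoImplicit false

namespace Pool.Agent.Lib.MP_7f190d_al

open Topology

section

variable {A : Type} [Group A] (p : ℕ) [Fact p.Prime]

/-- the subgroup generated by `(d, -1)` -/
noncomputable def NSub (d : A) : Subgroup (A × Multiplicative ℤ_[p]) :=
  Subgroup.zpowers (d, Multiplicative.ofAdd (-1 : ℤ_[p]))

lemma mem_NSub {d : A} {a : A} {x : ℤ_[p]} :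
    (a, Multiplicative.ofAdd x) ∈ NSub p d ↔ ∃ i : ℤ, d ^ i = a ∧ x = -(i : ℤ_[p]) := by
  unfold NSub
  rw [Subgroup.mem_zpowers_iff]
  constructor
  · rintro ⟨i, hi⟩
    refine ⟨i, congrArg Prod.fst hi, ?_⟩
    have h := congrArg Prod.snd hi
    simp only [Prod.pow_snd] at h
    rw [← ofAdd_zsmul] at h
    have h2 := Multiplicative.ofAdd.injective h
    rw [← h2]
    simp
  · rintro ⟨i, h1, h2⟩
    refine ⟨i, ?_⟩
    ext1
    · exact h1
    · simp only [Prod.pow_snd]
      rw [← ofAdd_zsmul, h2]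
      simp

end

theorem g_module : GStatement := by
  intro p k hp hA
  haveI : Fact p.Prime := ⟨hp⟩
  obtain ⟨A, _, d, hcen, hinf, htf, hexp, a, b, hab⟩ := hA
  letI : TopologicalSpace A := ⊥
  haveI : DiscreteTopology A := ⟨rfl⟩
  haveI : IsTopologicalGroup A := inferInstance
  let N := NSub p d
  have hNcen : ∀ g ∈ N, ∀ h : A × Multiplicative ℤ_[p], h * g = g * h := by
    intro g hg h
    obtain ⟨g1, g2⟩ := g
    obtain ⟨h1, h2⟩ := h
    obtain ⟨i, hi, -⟩ := (mem_NSub p (x := Multiplicative.toAdd g2)).mp hg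
    ext1
    · change h1 * g1 = g1 * h1
      rw [← hi]
      have : Commute h1 d := hcen h1
      exact this.zpow_right i
    · exact mul_comm _ _
  haveI hNn : N.Normal := by
    constructor
    intro g hg h
    rw [hNcen g hg h, mul_inv_cancel_right]
    exact hg
  have hinj : ∀ i j : ℤ, d ^ i = d ^ j → i = j := by
    intro i j hij
    have : d ^ (i - j) = 1 := by rw [zpow_sub, hij, mul_inv_cancel]
    have := hinf _ this
    omega
  haveI hNc : IsClosed (N : Set (A × Multiplicative ℤ_[p])) := by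
    have h1 : (N : Set (A × Multiplicative ℤ_[p]))ᶜ =
        ⋃ a : A, ({a} : Set A) ×ˢ {x : Multiplicative ℤ_[p] | (a, x) ∉ N} := by
      ext ⟨a, x⟩
      simp
    rw [← isOpen_compl_iff, h1]
    refine isOpen_iUnion fun a => (isOpen_discrete _).prod ?_
    have h2 : {x : Multiplicative ℤ_[p] | (a, x) ∉ N} = {x | (a, x) ∈ N}ᶜ := rfl
    rw [h2, isOpen_compl_iff]
    apply Set.Subsingleton.isClosed
    intro x hx y hy
    obtain ⟨i, hi, hi'⟩ := (mem_NSub p (x := Multiplicative.toAdd x)).mp hx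
    obtain ⟨j, hj, hj'⟩ := (mem_NSub p (x := Multiplicative.toAdd y)).mp hy
    have : i = j := hinj _ _ (hi.trans hj.symm)
    subst this
    exact Multiplicative.toAdd.injective (hi'.trans hj'.symm)
  let G := (A × Multiplicative ℤ_[p]) ⧸ N
  let mk : A × Multiplicative ℤ_[p] →* G := QuotientGroup.mk' N
  have hmk : Function.Surjective mk := QuotientGroup.mk'_surjective N
  have hmk1 : ∀ g, mk g = 1 ↔ g ∈ N := fun g => QuotientGroup.eq_one_iff g
  let φ : Multiplicative ℤ_[p] →* G := mk.comp (MonoidHom.inr A (Multiplicative ℤ_[p]))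
  have hφ : ∀ x, φ x = mk (1, x) := fun x => rfl
  have hφc : Continuous φ := by
    change Continuous fun x => (QuotientGroup.mk ((1 : A), x) : G)
    exact continuous_quotient_mk'.comp (by fun_prop)
  have hφi : Function.Injective φ := by
    rw [injective_iff_map_eq_one]
    intro x hx
    rw [hφ, hmk1] at hx
    obtain ⟨i, hi, hi'⟩ := (mem_NSub p (x := Multiplicative.toAdd x)).mp hx
    have : i = 0 := hinf i hi
    subst this
    apply Multiplicative.toAdd.injective
    rw [hi']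
    simp
  have hcent : φ.range ≤ Subgroup.center G := by
    rintro _ ⟨x, rfl⟩
    rw [Subgroup.mem_center_iff]
    intro g
    obtain ⟨⟨g1, g2⟩, rfl⟩ := hmk g
    rw [hφ, ← map_mul, ← map_mul]
    congr 1
    ext1
    · change g1 * 1 = 1 * g1
      rw [mul_one, one_mul]
    · exact mul_comm _ _
  -- a formula
  have hform : ∀ (s : ℤ) (x : ℤ_[p]), mk (d ^ s, Multiplicative.ofAdd x) =
      φ (Multiplicative.ofAdd (x + s)) := by
    intro s x
    rw [hφ]
    have h1 : mk ((d ^ s, Multiplicative.ofAdd x) * (1, Multiplicative.ofAdd (x + s))⁻¹) = 1 := by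
      rw [hmk1]
      have h2 : ((d ^ s, Multiplicative.ofAdd x) * (1, Multiplicative.ofAdd (x + s))⁻¹ :
          A × Multiplicative ℤ_[p]) = (d ^ s, Multiplicative.ofAdd (-(s : ℤ_[p]))) := by
        ext1
        · simp
        · change Multiplicative.ofAdd x * (Multiplicative.ofAdd (x + s))⁻¹ = _
          rw [← ofAdd_neg, ← ofAdd_add]
          congr 1
          ring
      rw [h2]
      exact (mem_NSub p).mpr ⟨s, rfl, rfl⟩
    rw [map_mul, map_inv, mul_inv_eq_one] at h1
    exact h1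
  have hpk : p ^ k ≠ 0 := pow_ne_zero _ hp.ne_zero
  have hexpG : ∀ g : G, g ^ (p ^ k) ∈ φ.range := by
    intro g
    obtain ⟨⟨g1, g2⟩, rfl⟩ := hmk g
    obtain ⟨s, hs⟩ := Subgroup.mem_zpowers_iff.mp (hexp g1)
    rw [← map_pow]
    have h1 : ((g1, g2) ^ (p ^ k) : A × Multiplicative ℤ_[p]) =
        (d ^ s, Multiplicative.ofAdd (Multiplicative.toAdd (g2 ^ (p ^ k)))) := by
      ext1
      · exact hs.symm
      · rfl
    rw [h1, hform]
    exact ⟨_, rfl⟩
  have htfG : ∀ g : G, IsOfFinOrder g → g = 1 := by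
    intro g hg
    obtain ⟨m, hm, hm1⟩ := isOfFinOrder_iff_pow_eq_one.mp hg
    obtain ⟨⟨g1, g2⟩, rfl⟩ := hmk g
    rw [← map_pow, hmk1] at hm1
    obtain ⟨i, hi, hi'⟩ := (mem_NSub p (x := Multiplicative.toAdd (g2 ^ m))).mp hm1
    obtain ⟨s, hs⟩ := Subgroup.mem_zpowers_iff.mp (hexp g1)
    set x : ℤ_[p] := Multiplicative.toAdd g2 with hx
    have hi2 : (m : ℤ_[p]) * x = -(i : ℤ_[p]) := by
      rw [← hi', toAdd_pow, nsmul_eq_mul]
    have hi1 : d ^ i = g1 ^ m := hi
    -- `s m = i p ^ k`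
    have h1 : s * m = i * (p ^ k : ℕ) := by
      apply hinj
      rw [zpow_mul, hs, zpow_natCast, ← pow_mul, zpow_mul, hi1, zpow_natCast, ← pow_mul, mul_comm]
    have hm0 : (m : ℤ_[p]) ≠ 0 := by
      exact_mod_cast (Nat.pos_iff_ne_zero.mp hm)
    have h2 : ((p ^ k : ℕ) : ℤ_[p]) * x = -(s : ℤ_[p]) := by
      have h3 : (m : ℤ_[p]) * (((p ^ k : ℕ) : ℤ_[p]) * x) = m * (-(s : ℤ_[p])) := by
        have h4 : ((s * m : ℤ) : ℤ_[p]) = ((i * (p ^ k : ℕ) : ℤ) : ℤ_[p]) := by rw [h1]
        push_cast at h4 ⊢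
        linear_combination ((p : ℤ_[p]) ^ k) * hi2 + h4
      exact mul_left_cancel₀ hm0 h3
    have h3 : ((p : ℤ) ^ k) ∣ s := by
      rw [← PadicInt.pow_p_dvd_int_iff]
      refine ⟨-x, ?_⟩
      push_cast at h2
      linear_combination h2
    obtain ⟨t, ht⟩ := h3
    have hcomm : Commute g1 (d ^ (-t)) := (show Commute g1 d from hcen g1).zpow_right _
    have h5 : g1 * d ^ (-t) = 1 := by
      apply htf _ (p ^ k) (Nat.one_le_iff_ne_zero.mpr hpk)
      rw [hcomm.mul_pow, ← hs, ← zpow_natCast (d ^ (-t)), ← zpow_mul, ← zpow_add, ht]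
      have : (p : ℤ) ^ k * t + -t * ((p ^ k : ℕ) : ℤ) = 0 := by push_cast; ring
      rw [this, zpow_zero]
    have h6 : g1 = d ^ t := by
      rw [zpow_neg, mul_inv_eq_one] at h5
      exact h5
    have h7 : x = -(t : ℤ_[p]) := by
      have hp0 : (((p ^ k : ℕ)) : ℤ_[p]) ≠ 0 := by exact_mod_cast hpk
      apply mul_left_cancel₀ hp0
      rw [h2, ht]
      push_cast
      ring
    rw [hmk1]
    have h8 : ((g1, g2) : A × Multiplicative ℤ_[p]) = (d ^ t, Multiplicative.ofAdd x) := by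
      rw [h6]
      rfl
    rw [h8]
    exact (mem_NSub p).mpr ⟨t, rfl, h7⟩
  obtain ⟨hlc, hnd, hmin⟩ := FinExp.result p G htfG φ hφc hφi hcent (p ^ k) hpk hexpG
  refine ⟨G, inferInstance, inferInstance, inferInstance, inferInstance, hlc, hnd, ?_, ?_, hmin⟩
  · intro hbot
    have h1 : φ (Multiplicative.ofAdd 1) ∈ Subgroup.center G := hcent ⟨_, rfl⟩
    rw [hbot, Subgroup.mem_bot, ← map_one φ] at h1
    have h2 := Multiplicative.ofAdd.injective (hφi h1)
    exact one_ne_zero h2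
  · intro htop
    have h1 : mk (a, 1) ∈ Subgroup.center G := by rw [htop]; exact Subgroup.mem_top _
    rw [Subgroup.mem_center_iff] at h1
    have h2 := h1 (mk (b, 1))
    rw [← map_mul, ← map_mul, ← mul_inv_eq_one, ← map_inv, ← map_mul, hmk1] at h2
    have h3 : (((b, 1) * (a, 1)) * ((a, 1) * (b, 1))⁻¹ : A × Multiplicative ℤ_[p]) =
        (b * a * (a * b)⁻¹, Multiplicative.ofAdd 0) := by
      ext1
      · rfl
      · simp
    rw [h3] at h2
    obtain ⟨i, hi, hi'⟩ := (mem_NSub p).mp h2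
    have h4 : (i : ℤ_[p]) = 0 := by
      rw [eq_neg_iff_add_eq_zero, zero_add] at hi'
      exact hi'
    have h5 : i = 0 := by exact_mod_cast h4
    subst h5
    rw [zpow_zero] at hi
    exact hab (mul_inv_eq_one.mp hi.symm).symm

end Pool.Agent.Lib.MP_7f190d_al
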