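import Pool.Agent.Lib.MP_7f190d_al.Interfaces

/-!
# Module T: the limit group
-/

set_option autoImplicit false

namespace Pool.Agent.Lib.MP_7f190d_al

/-- A stage which is a quotient of `Γ₀`. -/
structure OverStage (Γ₀ : Type) [Group Γ₀] (z₀ : Γ₀) (D S T n : ℕ) where
  /-- the group -/
  Γ : Type
  [grp : Group Γ]
  /-- the central element -/
  z : Γ
  /-- the graph -/
  X : Type
  [act : MulAction Γ X]
  /-- the metric -/
  M : GMet X
  /-- the base point -/
  x₀ : X
  /-- the quotient map -/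
  q : Γ₀ →* Γ
  surj : Function.Surjective q
  hz : q z₀ = z
  st : StageHyp Γ z X M D (10000 * D) S T n

attribute [instance] OverStage.grp OverStage.act

section

variable {Γ₀ : Type} [Group Γ₀] {z₀ : Γ₀} {D S T n : ℕ}

/-- the displacement of the base point -/
def OverStage.disp (U : OverStage Γ₀ z₀ D S T n) (g : Γ₀) : ℕ := U.M.d U.x₀ (U.q g • U.x₀)

/-- `U'` is the stage after `U`. -/
def OverStage.Next (U U' : OverStage Γ₀ z₀ D S T n) : Prop :=
  (∀ g, U.q g = 1 → U'.q g = 1) ∧ (∀ g, U'.q g = 1 → U.q g ≠ 1 → 5 ≤ U.disp g) ∧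
  (∀ g, 2 * U'.disp g ≤ U.disp g + 1) ∧ (∀ g, U.disp g ≤ 1 → FO (U'.q z₀) (U'.q g))

lemma OverStage.exists_next (hC : ConstOK D S T n) (U : OverStage Γ₀ z₀ D S T n) :
    ∃ U' : OverStage Γ₀ z₀ D S T n, U.Next U' := by
  obtain ⟨Γ', _, z', X', _, M', x₀', f, h1, h2, h3, h4, h5, h6⟩ :=
    hC.step U.Γ U.z U.X U.M U.x₀ U.st
  have hz : f (U.q z₀) = z' := by rw [U.hz, h3]
  refine ⟨⟨Γ', z', X', M', x₀', f.comp U.q, h2.comp U.surj, hz, h1⟩, ?_, ?_, ?_, ?_⟩
  · intro g hg
    change f (U.q g) = 1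
    rw [hg, map_one]
  · intro g hg hg'
    exact h4 (U.q g) hg hg'
  · intro g
    exact h5 (U.q g)
  · intro g hg
    have := h6 (U.q g) hg
    change FO (f (U.q z₀)) (f (U.q g))
    rw [hz]
    exact this

/-- the sequence of stages -/
noncomputable def OverStage.seq (hC : ConstOK D S T n) (U : OverStage Γ₀ z₀ D S T n) :
    ℕ → OverStage Γ₀ z₀ D S T n
  | 0 => U
  | i + 1 => (OverStage.exists_next hC (OverStage.seq hC U i)).choose

lemma OverStage.seq_next (hC : ConstOK D S T n) (U : OverStage Γ₀ z₀ D S T n) (i : ℕ) :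
    (OverStage.seq hC U i).Next (OverStage.seq hC U (i + 1)) :=
  (OverStage.exists_next hC (OverStage.seq hC U i)).choose_spec

/-- in a stage: an element of finite order modulo `z` has its `n`-th power in `⟨z⟩` -/
lemma StageHyp.pow_mem {Γ X : Type} [Group Γ] [MulAction Γ X] {z : Γ} {M : GMet X} {L A : ℕ}
    (h : StageHyp Γ z X M D L A T n) (g : Γ) (hg : FO z g) : g ^ n ∈ Subgroup.zpowers z := by
  by_cases hgz : g ∈ Subgroup.zpowers z
  · exact Subgroup.pow_mem _ hgz _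
  · obtain ⟨k, hk, hgk⟩ := h.C3 g hgz hg
    obtain ⟨j, rfl⟩ := Subgroup.mem_zpowers_iff.mp hgk
    rw [Subgroup.mem_zpowers_iff]
    refine ⟨j, ?_⟩
    rw [← hk, ← zpow_natCast (k ^ j), ← zpow_mul, ← zpow_natCast k, ← zpow_mul, mul_comm]

/-- a stage is torsion-free -/
lemma StageHyp.torsionFree {Γ X : Type} [Group Γ] [MulAction Γ X] {z : Γ} {M : GMet X} {L A : ℕ}
    (h : StageHyp Γ z X M D L A T n) (g : Γ) (m : ℕ) (hm : 1 ≤ m) (hg : g ^ m = 1) : g = 1 := by
  by_cases hgz : g ∈ Subgroup.zpowers z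
  · obtain ⟨j, rfl⟩ := Subgroup.mem_zpowers_iff.mp hgz
    have h1 : z ^ (j * m) = 1 := by rw [zpow_mul, zpow_natCast, hg]
    have h2 := h.inf _ h1
    have h3 : j = 0 := by
      rcases mul_eq_zero.mp h2 with h3 | h3
      · exact h3
      · omega
    rw [h3, zpow_zero]
  · obtain ⟨k, hk, hgk⟩ := h.C3 g hgz ⟨m, hm, by rw [hg]; exact Subgroup.one_mem _⟩
    obtain ⟨j, rfl⟩ := Subgroup.mem_zpowers_iff.mp hgk
    have h1 : z ^ (j * m) = 1 := by
      have h2 : (k ^ (j * m)) ^ n = 1 := by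
        rw [zpow_mul, zpow_natCast, hg, one_pow]
      rw [← hk, ← zpow_natCast k, ← zpow_mul, mul_comm (n : ℤ), zpow_mul, zpow_natCast]
      exact h2
    have h2 := h.inf _ h1
    have h3 : j = 0 := by
      rcases mul_eq_zero.mp h2 with h3 | h3
      · exact h3
      · omega
    rw [h3, zpow_zero]

end

theorem t_module : TStatement := by
  intro D S T n hD hC hF
  have hn1 : 1 ≤ n := hC.hn.pos
  obtain ⟨Γ₀, _, z₀, X₀, _, M₀, x₀, a, b, hst, hab, hab4⟩ := hF D S T n hD hC.hT hC.hS hn1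
  let U₀ : OverStage Γ₀ z₀ D S T n :=
    ⟨Γ₀, z₀, X₀, M₀, x₀, MonoidHom.id Γ₀, fun g => ⟨g, rfl⟩, rfl, hst⟩
  let u := OverStage.seq hC U₀
  have hu : ∀ i, (u i).Next (u (i + 1)) := OverStage.seq_next hC U₀
  have hmono : ∀ i j, i ≤ j → ∀ g, (u i).q g = 1 → (u j).q g = 1 := by
    intro i j hij
    induction j, hij using Nat.le_induction with
    | base => exact fun g hg => hg
    | succ j hij ih => exact fun g hg => (hu j).1 g (ih g hg)
  let K : Subgroup Γ₀ :=
    { carrier := {g | ∃ i, (u i).q g = 1}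
      mul_mem' := by
        rintro g h ⟨i, hi⟩ ⟨j, hj⟩
        refine ⟨max i j, ?_⟩
        rw [map_mul, hmono i _ (le_max_left _ _) g hi, hmono j _ (le_max_right _ _) h hj, one_mul]
      one_mem' := ⟨0, map_one _⟩
      inv_mem' := by
        rintro g ⟨i, hi⟩
        exact ⟨i, by rw [map_inv, hi, inv_one]⟩ }
  have hK : ∀ g, g ∈ K ↔ ∃ i, (u i).q g = 1 := fun g => Iff.rfl
  have hKn : K.Normal := by
    constructor
    rintro g ⟨i, hi⟩ h
    exact ⟨i, by rw [map_mul, map_mul, hi, mul_one, map_inv, mul_inv_cancel]⟩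
  let mk : Γ₀ →* Γ₀ ⧸ K := QuotientGroup.mk' K
  have hmk : Function.Surjective mk := QuotientGroup.mk'_surjective K
  have hmk1 : ∀ g, mk g = 1 ↔ g ∈ K := fun g => QuotientGroup.eq_one_iff g
  refine ⟨Γ₀ ⧸ K, inferInstance, mk z₀, ?_, ?_, ?_, ?_, mk a, mk b, ?_⟩
  · intro g
    obtain ⟨g, rfl⟩ := hmk g
    rw [← map_mul, ← map_mul, hst.central]
  · intro m hm
    rw [← map_zpow, hmk1] at hm
    obtain ⟨i, hi⟩ := hm
    rw [map_zpow, (u i).hz] at hi
    exact (u i).st.inf m hi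
  · intro g m hm hgm
    obtain ⟨g, rfl⟩ := hmk g
    rw [← map_pow, hmk1] at hgm
    obtain ⟨i, hi⟩ := hgm
    rw [map_pow] at hi
    rw [hmk1]
    exact ⟨i, (u i).st.torsionFree _ m hm hi⟩
  · intro g
    obtain ⟨g, rfl⟩ := hmk g
    -- the displacement becomes at most one
    have h1 : ∀ N i, (u i).disp g ≤ N → ∃ j, (u j).disp g ≤ 1 := by
      intro N
      induction N using Nat.strong_induction_on with
      | _ N ih =>
        intro i hi
        by_cases h : N ≤ 1
        · exact ⟨i, by omega⟩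
        · have h2 := (hu i).2.2.1 g
          exact ih (N - 1) (by omega) (i + 1) (by omega)
    obtain ⟨j, hj⟩ := h1 _ 0 le_rfl
    have h2 := (hu j).2.2.2 g hj
    rw [(u (j + 1)).hz] at h2
    have h3 := (u (j + 1)).st.pow_mem _ h2
    obtain ⟨s, hs⟩ := Subgroup.mem_zpowers_iff.mp h3
    rw [Subgroup.mem_zpowers_iff]
    refine ⟨s, ?_⟩
    rw [← map_zpow, ← map_pow, ← mul_inv_eq_one, ← map_inv, ← map_mul, hmk1]
    refine ⟨j + 1, ?_⟩
    rw [map_mul, map_inv, map_pow, map_zpow, (u (j + 1)).hz, hs, mul_inv_cancel]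
  · intro h
    have h1 : a * b * a⁻¹ * b⁻¹ ∈ K := by
      rw [← hmk1]
      simp only [map_mul, map_inv]
      rw [h]
      group
    have hd : ∀ i, (u i).disp (a * b * a⁻¹ * b⁻¹) ≤ 4 := by
      intro i
      induction i with
      | zero => exact hab4
      | succ i ih =>
        have := (hu i).2.2.1 (a * b * a⁻¹ * b⁻¹)
        omega
    have hne : ∀ i, (u i).q (a * b * a⁻¹ * b⁻¹) ≠ 1 := by
      intro i
      induction i with
      | zero =>
        intro h0
        apply hab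
        have h2 : a * b * a⁻¹ * b⁻¹ = 1 := h0
        unfold CM
        rw [h2]
        exact Subgroup.one_mem _
      | succ i ih =>
        intro h0
        have h2 := (hu i).2.1 _ h0 ih
        have h3 := hd i
        omega
    obtain ⟨i, hi⟩ := h1
    exact hne i hi

end Pool.Agent.Lib.MP_7f190d_al
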